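import Pool.Agent.H80.NYU.Ev
import Pool.Agent.H31.W.H23.D2.Bal
import Pool.Agent.H31.W1.H80.GEN.Chn

/-!
# A tube label closed at an earlier window

`tub_u`: on one event, the label `Ht` of the coordinate `c r`, closed on the window `tN`, against a
label `TH` of the same coordinate in a chain of radius `2 ^ (-aN)`: their derivatives in the natural
directions of a third chain are near.
-/

set_option autoImplicit false

namespace Pool.W.D2R

open Pool.D2R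

open Finset Real MvPolynomial
open Pool.Agent.H49.Ent Pool.Agent.H32.Dense Pool.STK Pool.KA Pool.KSAT Pool.K2S Pool.PB Pool.S6C
open Pool.GEN Pool.CHT Pool.CHX Pool.ISO
open Pool.FLF (Fam.sub)
open Pool.PB.Trl (rt rt_mem t_rt)


/-- **A tube label closed at an earlier window**, on one event. -/
theorem tub_u (D r : ℕ) (hD : 1 ≤ D) : ∃ C : ℕ, 1 ≤ C ∧ ∀ {m J : ℕ} {F : Pool.KA.Fam m J} {c : ℕ → Fin m}
    {tN aN v p h u x d e e₁ w₁ e₂ w₂ : ℕ} {g₀ gT gf gT' s : ℕ → ℕ} {κ : ℝ} {B₀ : F.Ω → Prop}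
    {G : Pool.GEN.PtT F → ℕ → MvPolynomial (Option (Fin m)) ℝ}
    {H : Pool.GEN.LnT F → ℕ → MvPolynomial (Option (Fin m)) ℝ}
    {T' : Pool.GEN.PtT F → ℕ → MvPolynomial (Option (Fin m)) ℝ}
    {TH' : Pool.GEN.LnT F → ℕ → MvPolynomial (Option (Fin m)) ℝ}
    {Ht : Pool.GEN.LnT F → MvPolynomial (Option (Fin m)) ℝ}
    {T : Pool.GEN.PtT F → ℕ → MvPolynomial (Option (Fin m)) ℝ}
    {TH : Pool.GEN.LnT F → ℕ → MvPolynomial (Option (Fin m)) ℝ}
    {Gf : Pool.GEN.PtT F → ℕ → MvPolynomial (Option (Fin m)) ℝ}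
    {Hf : Pool.GEN.LnT F → ℕ → MvPolynomial (Option (Fin m)) ℝ},
    Set.InjOn c (Set.Iio (r + 1)) → aN ≤ J → w₁ ≤ aN → w₂ ≤ aN → 0 ≤ κ →
    κ * (8 * 16 ^ r) ≤ 1 → Pool.W.GEN.ChOK F c (r + 1) (fun _ => D) aN aN e g₀ B₀ G H →
    Pool.CHT.RelvF F c r aN aN g₀ D h κ B₀ G → Pool.D2R.ROut1 F c r tN aN v g₀ gT' p (2 ^ u) B₀ G H T' TH' Ht →
    (∀ l < r, gT' l ≤ g₀ l + v + x ∧ ∀ s, TH' s l = Pool.GEN.Hno (c l) (fun s => H s l) s) →
    Pool.W.GEN.ChOK F c (r + 1) (fun _ => D) aN w₁ e₁ gT B₀ T TH →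
    Pool.W.GEN.ChOK F c (r + 1) (fun _ => D) aN w₂ e₂ gf B₀ Gf Hf →
    (∀ l < r, g₀ l ≤ s l + d ∧ g₀ l ≤ gf l + x) → (∀ l ≤ r, gT l ≤ g₀ l + x) →
    gT r + v ≤ p + x →
    ∃ B : F.Ω → Prop, Pool.K2S.Sub B B₀ ∧ Pool.K2S.Pe F.p B₀ ≤ 4 * 16 ^ r * Pool.K2S.Pe F.p B ∧ ∀ ω, B ω →
      ∀ V : Option (Fin m) → ℝ, V none = 0 →
      (∀ l < r, |V (some (c l)) - Pool.D2R.dd (Gf (Pool.PB.ptr F J ω) l) (Pool.GEN.bt F ω) V| ≤ 1 / 2 ^ s l) →
      |Pool.D2R.dd (Ht (Pool.KSAT.slam F tN ω)) (Pool.GEN.bt F ω) V - Pool.D2R.dd (TH (Pool.KSAT.slam F w₁ ω) r) (Pool.GEN.bt F ω) V| ≤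
        2 ^ (C * (h + x + u + 1)) * (2 ^ d / 2 ^ gT r) := by
  obtain ⟨C₁, hbal⟩ := Pool.W.D2R.bal_out D r hD
  have hba := fun l : ℕ => Pool.D2R.box_all l D D
  choose Cb hCb hbl using hba
  obtain ⟨Cm, hCm⟩ : ∃ Cm : ℝ, Cm = ∑ l ∈ range (r + 1), Cb l := ⟨_, rfl⟩
  have hCbl : ∀ l ≤ r, Cb l ≤ Cm := by
    intro l hl
    rw [hCm]
    exact Finset.single_le_sum (f := Cb) (fun l _ => by linarith [hCb l])
      (Finset.mem_range.2 (by omega))
  have hCm1 : 1 ≤ Cm := (hCb 0).trans (hCbl 0 (Nat.zero_le _))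
  obtain ⟨N₀, hN₀⟩ := pow_unbounded_of_one_lt (Cm + r + 4) (one_lt_two (α := ℝ))
  refine ⟨(N₀ + 2 * C₁ + 4) * (r + 8), Nat.mul_pos (by omega) (by omega), ?_⟩
  intro m J F c tN aN v p h u x d e e₁ w₁ e₂ w₂ g₀ gT gf gT' s κ B₀ G H T' TH' Ht T TH Gf Hf hc haJ
    hw₁ hw₂ hκ0 hκ hb hR hro hth hT hf hs hgT hp
  obtain ⟨Z, hZ4, hZe, z1, z2, z3, z4, z5⟩ := Pool.D2R.num_tu (h := h) (x := x) (u := u) (C₁ := C₁) hN₀.le hCm1
  have hr0 : (0 : ℝ) ≤ r := Nat.cast_nonneg r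
  have hp0 := Pool.K2S.Pe_nonneg F.isLaw
  have hc' : Set.InjOn c (Set.Iio r) := hc.mono fun y hy => by
    rw [Set.mem_Iio] at hy ⊢
    omega
  have h16 : (16 : ℝ) ^ r = 4 ^ r * 4 ^ r := by rw [← mul_pow]; norm_num
  have h4r : (1 : ℝ) ≤ 4 ^ r := one_le_pow₀ (by norm_num)
  obtain ⟨B₁, a1, a2, a3⟩ := hbal hc' hw₂ haJ hR (fun _ h => h) (κ' := 1) (by rw [one_mul]) hκ0
    (by
      refine le_trans (mul_le_mul_of_nonneg_left ?_ hκ0) hκ
      rw [h16]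
      nlinarith) hf hb
  obtain ⟨B₂, b1, b2, b3⟩ := hbal hc' hw₁ haJ hR a1 (κ' := 1 / (2 * 4 ^ r)) (by
      rw [one_div_mul_eq_div, div_le_iff₀ (by positivity), mul_comm]
      exact a2) hκ0 (by
      rw [le_div_iff₀ (by positivity)]
      refine le_trans (le_of_eq ?_) hκ
      rw [h16]
      ring) (hT.sub a1) (hb.sub a1)
  refine ⟨B₂, fun ω hω => a1 ω (b1 ω hω), ?_, ?_⟩
  · calc Pool.K2S.Pe F.p B₀ ≤ 2 * 4 ^ r * Pool.K2S.Pe F.p B₁ := a2
      _ ≤ 2 * 4 ^ r * (2 * 4 ^ r * Pool.K2S.Pe F.p B₂) := mul_le_mul_of_nonneg_left b2 (by positivity)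
      _ = _ := by
        rw [h16]
        ring
  intro ω hω V hV0 hV
  have hω₁ : B₁ ω := b1 ω hω
  have hω₀ : B₀ ω := a1 ω hω₁
  obtain ⟨X, hX⟩ : ∃ X, X = Pool.GEN.bt F ω := ⟨_, rfl⟩
  rw [← hX] at hV ⊢
  obtain ⟨n, hn⟩ : ∃ n : ℕ → ℝ, n = fun l => Pool.D2R.nrm c (G (Pool.PB.ptr F J ω)) g₀ aN l X V := ⟨_, rfl⟩
  have hn0 : ∀ l, 0 ≤ n l := fun l => by
    rw [hn]
    exact Pool.D2R.nrm_nonneg _ _ _ _ _ _ _
  obtain ⟨Y, hY⟩ : ∃ Y : ℝ, Y = 2 ^ (C₁ * (h + 1)) := ⟨_, rfl⟩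
  have hY0 : 0 < Y := by rw [hY]; positivity
  obtain ⟨A, hA⟩ : ∃ A : ℝ, A = Cm * Y * 2 ^ x := ⟨_, rfl⟩
  have hA0 : 0 < A := by rw [hA]; positivity
  rw [← hY, ← hA] at z5
  have hpw : ∀ {i j : ℕ}, i ≤ j → (2 : ℝ) ^ i ≤ 2 ^ j := fun h => pow_le_pow_right₀ (by norm_num) h
  -- `2 ^ i / 2 ^ j`
  have hdv : ∀ {i j k : ℕ}, i ≤ j + k → (2 : ℝ) ^ i / 2 ^ j ≤ 2 ^ k := fun h => by
    rw [div_le_iff₀ (by positivity), ← pow_add]
    exact hpw (by omega)
  have hXn : X none = F.t ω := by rw [hX]; rfl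
  have hXc : ∀ l, X (some (c l)) = F.x ω (c l) := fun l => by rw [hX]; rfl
  have hbp : ∀ l ≤ r, ∀ j < l, |X (some (c j)) - eval X (G (Pool.PB.ptr F J ω) j)| ≤ 1 / 2 ^ g₀ j := by
    intro l hl j hj
    rw [hXc, hX]
    exact hb.pos ω hω₀ j (by omega)
  have hci : ∀ l ≤ r, Set.InjOn c (Set.Iio l) := fun l hl => hc.mono fun y hy => by
    rw [Set.mem_Iio] at hy ⊢
    omega
  -- the frame against the ball
  have f1 : ∀ l < r, |Pool.D2R.dd (Gf (Pool.PB.ptr F J ω) l) X V - Pool.D2R.dd (G (Pool.PB.ptr F J ω) l) X V| ≤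
      A / 2 ^ g₀ l * n l := by
    intro l hl
    have h1 := (hbl l (c := c) (ψ := G (Pool.PB.ptr F J ω)) (Q := Gf (Pool.PB.ptr F J ω) l - G (Pool.PB.ptr F J ω) l)
      (g := g₀) (a := aN) (M := Y / 2 ^ min (gf l) (g₀ l)) (x := X) (hci l hl.le) (hb.degG _)
      (hb.depG _) (fun b b' h3 h4 => by
        rw [map_sub, map_sub, hf.depG _ l b b' h3 h4, hb.depG _ l b b' h3 h4])
      ((totalDegree_sub _ _).trans (max_le (hf.degG _ l) (hb.degG _ l))) (by positivity)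
      (fun b hb' => by
        rw [map_sub, hY]
        rw [hXn] at hb'
        exact a3 ω hω₁ l hl.le b hb') (hbp l hl.le)).1 V
    rw [Pool.D2R.dd_sub] at h1
    refine h1.trans ?_
    rw [hn]
    refine mul_le_mul_of_nonneg_right ?_ (Pool.D2R.nrm_nonneg _ _ _ _ _ _ _)
    have h2 := (hs l hl).2
    have h3 : (2 : ℝ) ^ g₀ l / 2 ^ min (gf l) (g₀ l) ≤ 2 ^ x := hdv (by
      rcases min_choice (gf l) (g₀ l) with h | h <;> rw [h] <;> omega)
    rw [le_div_iff₀ (by positivity)]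
    calc Cb l * (Y / 2 ^ min (gf l) (g₀ l)) * 2 ^ g₀ l =
          Cb l * Y * (2 ^ g₀ l / 2 ^ min (gf l) (g₀ l)) := by ring
      _ ≤ Cm * Y * 2 ^ x := by
          refine mul_le_mul (mul_le_mul_of_nonneg_right (hCbl l hl.le) hY0.le) h3 (by positivity)
            (by positivity)
      _ = A := hA.symm
  -- the chain against the ball
  have f2 : ∀ l ≤ r, |Pool.D2R.dd (T (Pool.PB.ptr F J ω) l) X V - Pool.D2R.dd (G (Pool.PB.ptr F J ω) l) X V| ≤
      A / 2 ^ gT l * n l := by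
    intro l hl
    have h1 := (hbl l (c := c) (ψ := G (Pool.PB.ptr F J ω)) (Q := T (Pool.PB.ptr F J ω) l - G (Pool.PB.ptr F J ω) l)
      (g := g₀) (a := aN) (M := Y / 2 ^ min (gT l) (g₀ l)) (x := X) (hci l hl) (hb.degG _)
      (hb.depG _) (fun b b' h3 h4 => by
        rw [map_sub, map_sub, hT.depG _ l b b' h3 h4, hb.depG _ l b b' h3 h4])
      ((totalDegree_sub _ _).trans (max_le (hT.degG _ l) (hb.degG _ l))) (by positivity)
      (fun b hb' => by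
        rw [map_sub, hY]
        rw [hXn] at hb'
        exact b3 ω hω l hl b hb') (hbp l hl)).1 V
    rw [Pool.D2R.dd_sub] at h1
    refine h1.trans ?_
    rw [hn]
    refine mul_le_mul_of_nonneg_right ?_ (Pool.D2R.nrm_nonneg _ _ _ _ _ _ _)
    have h2 := hgT l hl
    have h3 : (2 : ℝ) ^ gT l / 2 ^ min (gT l) (g₀ l) ≤ 2 ^ x := hdv (by
      rcases min_choice (gT l) (g₀ l) with h | h <;> rw [h] <;> omega)
    rw [le_div_iff₀ (by positivity)]
    calc Cb l * (Y / 2 ^ min (gT l) (g₀ l)) * 2 ^ gT l =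
          Cb l * Y * (2 ^ gT l / 2 ^ min (gT l) (g₀ l)) := by ring
      _ ≤ Cm * Y * 2 ^ x := by
          refine mul_le_mul (mul_le_mul_of_nonneg_right (hCbl l hl) hY0.le) h3 (by positivity)
            (by positivity)
      _ = A := hA.symm
  -- the norm
  have hnr : ∀ l ≤ r, n l ≤ l * (1 + A) ^ l * 2 ^ d := by
    intro l
    induction l with
    | zero =>
      intro _
      rw [hn]
      show Pool.D2R.nrm c (G (Pool.PB.ptr F J ω)) g₀ aN 0 X V ≤ _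
      rw [Pool.D2R.nrm_sp _ _ _ hV0, Finset.range_zero, Finset.sum_empty]
      simp
    | succ l ih =>
      intro hl
      have h1 := ih (by omega)
      have e1 : n (l + 1) = n l + 2 ^ g₀ l * |V (some (c l)) - Pool.D2R.dd (G (Pool.PB.ptr F J ω) l) X V| := by
        rw [hn]
        exact Pool.D2R.nrm_succ _ _ _ hV0
      have h2 : |V (some (c l)) - Pool.D2R.dd (G (Pool.PB.ptr F J ω) l) X V| ≤ 1 / 2 ^ s l + A / 2 ^ g₀ l * n l := by
        have e2 : V (some (c l)) - Pool.D2R.dd (G (Pool.PB.ptr F J ω) l) X V =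
            (V (some (c l)) - Pool.D2R.dd (Gf (Pool.PB.ptr F J ω) l) X V) +
            (Pool.D2R.dd (Gf (Pool.PB.ptr F J ω) l) X V - Pool.D2R.dd (G (Pool.PB.ptr F J ω) l) X V) := by ring
        rw [e2]
        exact (abs_add_le _ _).trans (add_le_add (hV l (by omega)) (f1 l (by omega)))
      have h3 : 2 ^ g₀ l * |V (some (c l)) - Pool.D2R.dd (G (Pool.PB.ptr F J ω) l) X V| ≤ 2 ^ d + A * n l := by
        refine (mul_le_mul_of_nonneg_left h2 (by positivity)).trans ?_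
        have e2 : (2 : ℝ) ^ g₀ l * (1 / 2 ^ s l + A / 2 ^ g₀ l * n l) =
            2 ^ g₀ l / 2 ^ s l + A * n l := by
          field_simp
        rw [e2]
        exact add_le_add (hdv (by have := (hs l (by omega)).1; omega)) le_rfl
      rw [e1]
      have h4 : (1 : ℝ) ≤ (1 + A) ^ (l + 1) := one_le_pow₀ (by linarith)
      have h5 : (1 + A) * n l ≤ (1 + A) * (l * (1 + A) ^ l * 2 ^ d) :=
        mul_le_mul_of_nonneg_left h1 (by linarith)
      have h6 : (2 : ℝ) ^ d ≤ (1 + A) ^ (l + 1) * 2 ^ d :=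
        le_mul_of_one_le_left (by positivity) h4
      have e3 : ((l + 1 : ℕ) : ℝ) * (1 + A) ^ (l + 1) * 2 ^ d =
          (1 + A) * (l * (1 + A) ^ l * 2 ^ d) + (1 + A) ^ (l + 1) * 2 ^ d := by
        push_cast
        rw [pow_succ]
        ring
      rw [e3]
      linarith
  obtain ⟨M, hM⟩ : ∃ M, M = n r := ⟨_, rfl⟩
  have hM0 : 0 ≤ M := by rw [hM]; exact hn0 r
  have hnM : ∀ l ≤ r, n l ≤ M := fun l hl => by
    rw [hM, hn]
    exact Pool.D2R.nrm_up aN hl X hV0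
  have hMs : ∑ l ∈ range r, 2 ^ g₀ l * |V (some (c l)) - Pool.D2R.dd (G (Pool.PB.ptr F J ω) l) X V| = M := by
    rw [hM, hn]
    exact (Pool.D2R.nrm_sp _ _ _ hV0).symm
  have hMZ : M ≤ Z ^ (r + 1) * 2 ^ d := by
    rw [hM]
    refine (hnr r le_rfl).trans (mul_le_mul_of_nonneg_right ?_ (by positivity))
    rw [pow_succ, mul_comm (Z ^ r)]
    exact mul_le_mul z2 (pow_le_pow_left₀ (by linarith) z5 r) (by positivity) (by linarith)
  -- the chain against its closed form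
  have f3 : |Pool.D2R.dd (T (Pool.PB.ptr F J ω) r) X V - Pool.D2R.dd (TH (Pool.KSAT.slam F w₁ ω) r) X V| ≤
      Cm * (2 ^ x + r * A) / 2 ^ gT r * M := by
    have h1 := (hbl r (c := c) (ψ := T (Pool.PB.ptr F J ω)) (Q := T (Pool.PB.ptr F J ω) r - TH (Pool.KSAT.slam F w₁ ω) r)
      (g := gT) (a := aN) (M := 1 / 2 ^ gT r) (x := X) hc' (hT.degG _) (hT.depG _)
      (fun b b' h3 h4 => by
        rw [map_sub, map_sub, hT.depG _ r b b' h3 h4, hT.depH _ r b b' h3 h4])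
      ((totalDegree_sub _ _).trans (max_le (hT.degG _ r) (hT.degH _ r))) (by positivity)
      (fun b hb' => by
        rw [map_sub]
        rw [hXn] at hb'
        exact hT.agr ω hω₀ r (by omega) b hb') (fun j hj => by
        rw [hXc, hX]
        exact hT.pos ω hω₀ j (by omega))).1 V
    rw [Pool.D2R.dd_sub] at h1
    refine h1.trans ?_
    have h2 : Pool.D2R.nrm c (T (Pool.PB.ptr F J ω)) gT aN r X V ≤ (2 ^ x + r * A) * M := by
      rw [Pool.D2R.nrm_sp _ _ _ hV0]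
      have h3 : ∀ l ∈ range r, 2 ^ gT l * |V (some (c l)) - Pool.D2R.dd (T (Pool.PB.ptr F J ω) l) X V| ≤
          2 ^ x * (2 ^ g₀ l * |V (some (c l)) - Pool.D2R.dd (G (Pool.PB.ptr F J ω) l) X V|) + A * M := by
        intro l hl
        rw [Finset.mem_range] at hl
        have h4 := f2 l hl.le
        rw [abs_sub_comm] at h4
        have e2 : V (some (c l)) - Pool.D2R.dd (T (Pool.PB.ptr F J ω) l) X V =
            (V (some (c l)) - Pool.D2R.dd (G (Pool.PB.ptr F J ω) l) X V) +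
            (Pool.D2R.dd (G (Pool.PB.ptr F J ω) l) X V - Pool.D2R.dd (T (Pool.PB.ptr F J ω) l) X V) := by ring
        rw [e2]
        refine (mul_le_mul_of_nonneg_left ((abs_add_le _ _).trans (add_le_add le_rfl h4))
          (by positivity)).trans ?_
        rw [mul_add]
        refine add_le_add ?_ ?_
        · rw [← mul_assoc]
          refine mul_le_mul_of_nonneg_right ?_ (abs_nonneg _)
          rw [← pow_add]
          exact hpw (by have := hgT l hl.le; omega)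
        · have e3 : (2 : ℝ) ^ gT l * (A / 2 ^ gT l * n l) = A * n l := by field_simp
          rw [e3]
          exact mul_le_mul_of_nonneg_left (hnM l hl.le) hA0.le
      refine (Finset.sum_le_sum h3).trans (le_of_eq ?_)
      rw [Finset.sum_add_distrib, ← Finset.mul_sum, hMs, Finset.sum_const, Finset.card_range,
        nsmul_eq_mul]
      ring
    calc Cb r * (1 / 2 ^ gT r) * Pool.D2R.nrm c (T (Pool.PB.ptr F J ω)) gT aN r X V ≤
          Cm * (1 / 2 ^ gT r) * ((2 ^ x + r * A) * M) :=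
          mul_le_mul (mul_le_mul_of_nonneg_right (hCbl r le_rfl) (by positivity)) h2
            (Pool.D2R.nrm_nonneg _ _ _ _ _ _ _) (by positivity)
      _ = _ := by ring
  -- the ball against its closed form
  have f4 : ∀ l ≤ r, |Pool.D2R.dd (Pool.GEN.Hno (c l) (fun s => H s l) (Pool.KSAT.slam F aN ω)) X V -
      Pool.D2R.dd (G (Pool.PB.ptr F J ω) l) X V| ≤ 2 ^ u / 2 ^ g₀ l * n l := by
    intro l hl
    have h1 := (hro.dif ω hω₀ l hl).1 V
    rw [Pool.D2R.dd_sub, ← hX] at h1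
    rw [hn]
    exact h1
  -- the row label
  have f5 : |Pool.D2R.dd (Ht (Pool.KSAT.slam F tN ω)) X V - Pool.D2R.dd (Pool.GEN.Hno (c r) (fun s => H s r) (Pool.KSAT.slam F aN ω)) X V| ≤
      2 ^ u / 2 ^ p * (2 ^ (v + x) * ((1 + r * 2 ^ u) * M)) := by
    have h1 := hro.win ω hω₀ (Pool.PB.Trl.rt F aN ω) (Pool.PB.Trl.rt_mem F aN ω) V
    rw [Pool.D2R.ptw_rt F haJ, Pool.D2R.dd_sub, ← hX] at h1
    refine h1.trans (mul_le_mul_of_nonneg_left ?_ (by positivity))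
    rw [Pool.D2R.nrm_sp _ _ _ hV0]
    have h3 : ∀ l ∈ range r, 2 ^ gT' l * |V (some (c l)) - Pool.D2R.dd (TH' (Pool.KSAT.slam F aN ω) l) X V| ≤
        2 ^ (v + x) * (2 ^ g₀ l * |V (some (c l)) - Pool.D2R.dd (G (Pool.PB.ptr F J ω) l) X V| + 2 ^ u * M) := by
      intro l hl
      rw [Finset.mem_range] at hl
      have h4 := f4 l hl.le
      obtain ⟨h5, h6⟩ := hth l hl
      rw [← h6, abs_sub_comm] at h4
      have e2 : V (some (c l)) - Pool.D2R.dd (TH' (Pool.KSAT.slam F aN ω) l) X V =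
          (V (some (c l)) - Pool.D2R.dd (G (Pool.PB.ptr F J ω) l) X V) +
          (Pool.D2R.dd (G (Pool.PB.ptr F J ω) l) X V - Pool.D2R.dd (TH' (Pool.KSAT.slam F aN ω) l) X V) := by ring
      rw [e2]
      refine (mul_le_mul_of_nonneg_left ((abs_add_le _ _).trans (add_le_add le_rfl h4))
        (by positivity)).trans ?_
      have h7 : (2 : ℝ) ^ gT' l ≤ 2 ^ (v + x) * 2 ^ g₀ l := by
        rw [← pow_add]
        exact hpw (by omega)
      refine (mul_le_mul_of_nonneg_right h7 (add_nonneg (abs_nonneg _) (mul_nonneg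
        (by positivity) (hn0 l)))).trans ?_
      have e3 : (2 : ℝ) ^ (v + x) * 2 ^ g₀ l * (|V (some (c l)) - Pool.D2R.dd (G (Pool.PB.ptr F J ω) l) X V| +
          2 ^ u / 2 ^ g₀ l * n l) = 2 ^ (v + x) * (2 ^ g₀ l *
          |V (some (c l)) - Pool.D2R.dd (G (Pool.PB.ptr F J ω) l) X V| + 2 ^ u * n l) := by field_simp
      rw [e3]
      exact mul_le_mul_of_nonneg_left (add_le_add le_rfl (mul_le_mul_of_nonneg_left
        (hnM l hl.le) (by positivity))) (by positivity)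
    refine (Finset.sum_le_sum h3).trans (le_of_eq ?_)
    rw [← Finset.mul_sum, Finset.sum_add_distrib, hMs, Finset.sum_const, Finset.card_range,
      nsmul_eq_mul]
    ring
  -- the sum
  have g1 := f4 r le_rfl
  have g2 := f2 r le_rfl
  rw [abs_sub_comm] at g2
  have e1 : Pool.D2R.dd (Ht (Pool.KSAT.slam F tN ω)) X V - Pool.D2R.dd (TH (Pool.KSAT.slam F w₁ ω) r) X V =
      ((Pool.D2R.dd (Ht (Pool.KSAT.slam F tN ω)) X V - Pool.D2R.dd (Pool.GEN.Hno (c r) (fun s => H s r) (Pool.KSAT.slam F aN ω)) X V) +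
      (Pool.D2R.dd (Pool.GEN.Hno (c r) (fun s => H s r) (Pool.KSAT.slam F aN ω)) X V - Pool.D2R.dd (G (Pool.PB.ptr F J ω) r) X V)) +
      ((Pool.D2R.dd (G (Pool.PB.ptr F J ω) r) X V - Pool.D2R.dd (T (Pool.PB.ptr F J ω) r) X V) +
      (Pool.D2R.dd (T (Pool.PB.ptr F J ω) r) X V - Pool.D2R.dd (TH (Pool.KSAT.slam F w₁ ω) r) X V)) := by ring
  rw [e1]
  refine (abs_add_le _ _).trans ((add_le_add ((abs_add_le _ _).trans (add_le_add f5 g1))
    ((abs_add_le _ _).trans (add_le_add g2 f3))).trans ?_)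
  rw [← hM]
  obtain ⟨W, hW⟩ : ∃ W : ℝ, W = M / 2 ^ gT r := ⟨_, rfl⟩
  have hW0 : 0 ≤ W := by rw [hW]; positivity
  have hZ0 : 0 < Z := by linarith
  have hZ1 : 1 ≤ Z := by linarith
  have hAZ : A ≤ Z := by linarith
  have hZm : ∀ i j : ℕ, i ≤ j → Z ^ i ≤ Z ^ j := fun i j h => pow_le_pow_right₀ hZ1 h
  have k1 : 2 ^ u / 2 ^ p * (2 ^ (v + x) * ((1 + r * 2 ^ u) * M)) ≤ Z ^ 5 * 2 * W := by
    have h1 : (2 : ℝ) ^ (v + x) / 2 ^ p ≤ 2 ^ (x + x) / 2 ^ gT r := by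
      rw [div_le_div_iff₀ (by positivity) (by positivity), ← pow_add, ← pow_add]
      exact hpw (by omega)
    calc 2 ^ u / 2 ^ p * (2 ^ (v + x) * ((1 + r * 2 ^ u) * M)) =
          2 ^ u * (2 ^ (v + x) / 2 ^ p) * ((1 + r * 2 ^ u) * M) := by ring
      _ ≤ 2 ^ u * (2 ^ (x + x) / 2 ^ gT r) * ((1 + r * 2 ^ u) * M) :=
          mul_le_mul_of_nonneg_right (mul_le_mul_of_nonneg_left h1 (by positivity))
            (by positivity)
      _ = (2 ^ u * (2 ^ x * 2 ^ x)) * (1 + r * 2 ^ u) * W := by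
          rw [hW, pow_add]
          ring
      _ ≤ (Z * (Z * Z)) * (2 * Z ^ 2) * W := by
          refine mul_le_mul_of_nonneg_right (mul_le_mul (mul_le_mul z4 (mul_le_mul z3 z3
            (by positivity) hZ0.le) (by positivity) hZ0.le) ?_ (by positivity) (by positivity)) hW0
          have h2 : r * (2 : ℝ) ^ u ≤ Z * Z := mul_le_mul z2 z4 (by positivity) hZ0.le
          have h3 : (1 : ℝ) ≤ Z * Z := by nlinarith
          rw [pow_two]
          linarith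
      _ = Z ^ 5 * 2 * W := by ring
  have k2 : 2 ^ u / 2 ^ g₀ r * M ≤ Z ^ 2 * W := by
    have h1 : (1 : ℝ) / 2 ^ g₀ r ≤ 2 ^ x / 2 ^ gT r := by
      rw [div_le_div_iff₀ (by positivity) (by positivity), one_mul, ← pow_add]
      exact hpw (by have := hgT r le_rfl; omega)
    calc 2 ^ u / 2 ^ g₀ r * M = 2 ^ u * (1 / 2 ^ g₀ r) * M := by ring
      _ ≤ 2 ^ u * (2 ^ x / 2 ^ gT r) * M :=
          mul_le_mul_of_nonneg_right (mul_le_mul_of_nonneg_left h1 (by positivity)) hM0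
      _ = 2 ^ u * 2 ^ x * W := by
          rw [hW]
          ring
      _ ≤ Z * Z * W := mul_le_mul_of_nonneg_right (mul_le_mul z4 z3 (by positivity) hZ0.le) hW0
      _ = Z ^ 2 * W := by ring
  have k3 : A / 2 ^ gT r * M ≤ Z * W := by
    have e2 : A / 2 ^ gT r * M = A * W := by
      rw [hW]
      ring
    rw [e2]
    exact mul_le_mul_of_nonneg_right hAZ hW0
  have k4 : Cm * (2 ^ x + r * A) / 2 ^ gT r * M ≤ Z ^ 3 * 2 * W := by
    have e2 : Cm * (2 ^ x + r * A) / 2 ^ gT r * M = Cm * (2 ^ x + r * A) * W := by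
      rw [hW]
      ring
    rw [e2]
    refine mul_le_mul_of_nonneg_right ?_ hW0
    have h2 : r * A ≤ Z * Z := mul_le_mul z2 hAZ hA0.le hZ0.le
    have h3 : Z ≤ Z * Z := by nlinarith
    calc Cm * (2 ^ x + r * A) ≤ Z * (2 * (Z * Z)) :=
          mul_le_mul z1 (by linarith) (by positivity) hZ0.le
      _ = _ := by ring
  have k5 : 2 ^ u / 2 ^ p * (2 ^ (v + x) * ((1 + r * 2 ^ u) * M)) + 2 ^ u / 2 ^ g₀ r * M +
      (A / 2 ^ gT r * M + Cm * (2 ^ x + r * A) / 2 ^ gT r * M) ≤ Z ^ 6 * W * 2 := by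
    have h1 : Z ^ 5 * 2 * W + Z ^ 2 * W + (Z * W + Z ^ 3 * 2 * W) ≤ Z ^ 6 * 2 * W := by
      have h2 : Z ^ 5 * 2 + Z ^ 2 + (Z + Z ^ 3 * 2) ≤ Z ^ 6 * 2 := by
        have a1 := hZm 2 5 (by norm_num)
        have a2 := hZm 3 5 (by norm_num)
        have a3 : Z ≤ Z ^ 5 := by
          calc Z = Z ^ 1 := (pow_one Z).symm
            _ ≤ _ := hZm 1 5 (by norm_num)
        have a4 : Z ^ 6 = Z * Z ^ 5 := by ring
        have a5 : 4 * Z ^ 5 ≤ Z * Z ^ 5 := mul_le_mul_of_nonneg_right hZ4 (by positivity)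
        rw [a4]
        linarith
      have h3 := mul_le_mul_of_nonneg_right h2 hW0
      linarith
    linarith
  refine k5.trans ?_
  have k6 : W ≤ Z ^ (r + 1) * (2 ^ d / 2 ^ gT r) := by
    rw [hW, ← mul_div_assoc]
    exact div_le_div_of_nonneg_right hMZ (by positivity)
  rw [← hZe]
  calc Z ^ 6 * W * 2 ≤ Z ^ 6 * (Z ^ (r + 1) * (2 ^ d / 2 ^ gT r)) * Z :=
        mul_le_mul (mul_le_mul_of_nonneg_left k6 (by positivity)) (by linarith) (by norm_num)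
          (by positivity)
    _ = Z ^ (r + 8) * (2 ^ d / 2 ^ gT r) := by
        rw [show r + 8 = 6 + (r + 1) + 1 by omega, pow_add, pow_add, pow_one]
        ring

end Pool.W.D2R
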