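import Pool.Agent.H80.NYU.HuU
import Pool.Agent.H31.W.H73.D2.Tme
import Pool.Agent.H31.W.H80.NYU.Ev
import Pool.Agent.H3.W.Bas
import Pool.Agent.H31.W1.H2.GEN.ChT
import Pool.Agent.H31.W1.H2.GEN.EvS
import Pool.Agent.H31.W1.H23.D2.Bln
import Pool.Agent.H31.W1.H80.GEN.Chn

/-!
# The tube label of the coordinate `u`, closed at the window of the target

`HuT`: for the windows `WG` at the level `r + 1`, a polynomial of the coordinates before `u = c r`,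
closed at the window `o 0`, whose derivative in each natural direction of the frame is near the
derivative of the tube label of `u` which is closed at the deep window `o 1`. `huu_con`: from rows of
`u` at a larger radius `au`, for the windows `o 0` and `a`.
-/

set_option autoImplicit false

namespace Pool.W.V1E

open Pool.V1E

open Finset Real MvPolynomial
open Pool.Agent.H49.Ent Pool.Agent.H32.Dense Pool.STK Pool.KA Pool.KSAT Pool.K2S Pool.PB Pool.S6C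
open Pool.GEN Pool.CHT Pool.CHX Pool.ISO Pool.D2R Pool.D2G30 Pool.END18 Pool.D2Con
open Pool.LBT (ThrOf)
open Pool.LEV (Law)

variable {m : ℕ}

/-- **The tube label of** `u = c r`, closed at the window `o 0`, on a part of mass at least `1 / K₄` of
each event with the windows `WG` at the level `r + 1`. -/
def HuT (S : Pool.PB.PCl m) (c : ℕ → Fin m) (r D Du Dr N N₂ : ℕ) (R : ℕ → Prop) (C a Eb ε₀ η₀ χ : ℝ)
    (Pt : ℝ → ℝ → ℝ) (o : ℕ → ℝ) (lv be : ℕ → ℕ → ℝ) (κ K₄ : ℝ) : Prop :=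
  Pool.S6C.Bas S (fun J F B => ∀ (b : ℕ → ℕ → ℝ) (z : ℕ → ℕ → ℕ) (gc gT g₀ : ℕ → ℕ → ℕ)
    (G : ℕ → Pool.GEN.PtT F → ℕ → MvPolynomial (Option (Fin m)) ℝ)
    (H : ℕ → Pool.GEN.LnT F → ℕ → MvPolynomial (Option (Fin m)) ℝ)
    (T : ℕ → Pool.GEN.PtT F → ℕ → MvPolynomial (Option (Fin m)) ℝ)
    (TH : ℕ → Pool.GEN.LnT F → ℕ → MvPolynomial (Option (Fin m)) ℝ)
    (Gt : ℕ → Pool.GEN.PtT F → MvPolynomial (Option (Fin m)) ℝ)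
    (Ht : ℕ → Pool.GEN.LnT F → MvPolynomial (Option (Fin m)) ℝ),
    Pool.W.V1E.WG c (r + 1) D Dr N N₂ R C a Eb ε₀ η₀ Pt o lv be F b κ z B gc gT g₀ G H T TH Gt Ht →
    ∃ (B₂ : F.Ω → Prop) (TU : Pool.GEN.LnT F → MvPolynomial (Option (Fin m)) ℝ), Pool.K2S.Sub B₂ B ∧
      Pool.K2S.Pe F.p B ≤ K₄ * Pool.K2S.Pe F.p B₂ ∧ (∀ s, (TU s).totalDegree ≤ Du) ∧ (∀ s, Pool.GEN.DepC c r (TU s)) ∧
      ∀ ω, B₂ ω → ∀ V : Option (Fin m) → ℝ, V none = 0 →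
        (∀ j < r, |V (some (c j)) - Pool.D2R.dd (G 2 (Pool.PB.ptr F J ω) j) (Pool.GEN.bt F ω) V| ≤
          1 / 2 ^ ⌊lv 0 j * J⌋₊) →
        |Pool.D2R.dd (TU (Pool.KSAT.slam F ⌊o 0 * J⌋₊ ω)) (Pool.GEN.bt F ω) V -
          Pool.D2R.dd (TH 1 (Pool.KSAT.slam F ⌊o 1 * J⌋₊ ω) r) (Pool.GEN.bt F ω) V| ≤
          2 ^ ⌊χ * J⌋₊ * 2 ^ (⌊a * J⌋₊ - ⌊o 0 * J⌋₊) / 2 ^ gT 1 r)

/-- **The tube label of** `u`, from rows of `u` at the radius `au`, for the windows `o 0` and `a`. -/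
theorem huu_con (m r S₀ : ℕ) (hr : 1 ≤ r) (hS₀ : 1 ≤ S₀) : ∃ Du : ℕ, 1 ≤ Du ∧ ∀ D : ℕ, 1 ≤ D →
    ∃ C₁ : ℝ, 1 ≤ C₁ ∧ ∀ {S : Pool.PB.PCl m} {P : List (Fin m) × Fin m → ℝ → ℝ → ℝ} {θ : ℝ}
    {c : ℕ → Fin m} {Pt Pu : ℝ → ℝ → ℝ} {R Rw : ℕ → Prop} {C a au Eb Eu ε₁ ε₀ η₀ χ : ℝ}
    {o : ℕ → ℝ} {lv be : ℕ → ℕ → ℝ} (Dr N N₂ : ℕ), 1 ≤ N → 2 ≤ N₂ →
    Pool.LBT.ThrOf (Pool.W.CHT.chsys m θ) S P → 0 < θ → Pool.CHT.TmH S → Set.InjOn c (Set.Iio (r + 1)) → Pool.LEV.Law Pu → 0 ≤ Eu →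
    (∀ w : ℝ, w = o 0 ∨ w = a → Pool.W.ISO.WinD S P θ c r Pu au w S₀ Eu ε₀ Rw) → (∀ l < r, Rw l) →
    C₁ * ε₀ < η₀ → C₁ * η₀ ≤ χ →
    (∀ w : ℝ, w = o 0 ∨ w = a → C₁ * η₀ ≤ w ∧ C₁ * η₀ ≤ Pu au w ∧
      C₁ * η₀ ≤ Pool.ISO.lvN P c r Pu r w w ∧ w + C₁ * η₀ ≤ au ∧
      (∀ l ≤ r, Pool.ISO.lvN P c r Pu l w w + (au - w) + (Eu + 2 * η₀) < 1) ∧
      ∀ l < r, Pool.CHT.bet P c l au w + (Eu + 2 * η₀) < 1) → au ≤ 1 →
    (∀ l < r, Pool.ISO.lvN P c r Pu l a a ≤ lv 0 l + (a - o 0) + η₀ ∧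
      Pool.ISO.lvN P c r Pu l a a ≤ lv 2 l + (a - o 2) + η₀) →
    (∀ l ≤ r, (R l → lv 1 l + (a - o 1) ≤ Pool.ISO.lvN P c r Pu l a a + η₀) ∧
      (¬ R l → be 1 l ≤ Pool.ISO.lvN P c r Pu l a a + η₀)) →
    (R r → lv 1 r + (a - o 1) + (au - a) ≤ Pu au (o 0) + η₀) →
    (¬ R r → be 1 r + (au - a) ≤ Pu au (o 0) + η₀) →
    ∃ K₄ : ℝ, 0 < K₄ ∧ ∀ κ : ℝ,
      Pool.W.V1E.HuT S c r D Du Dr N N₂ R C a Eb ε₁ η₀ χ Pt o lv be κ K₄ := by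
  obtain ⟨Du, hDu, hwg⟩ := Pool.W.V1E.wg_con m r S₀ hr hS₀
  refine ⟨Du, hDu, fun D hD => ?_⟩
  obtain ⟨D₂, hD₂⟩ : ∃ D₂, D₂ = max D Du := ⟨_, rfl⟩
  have hD2 : D ≤ D₂ := by omega
  have hDu2 : Du ≤ D₂ := by omega
  obtain ⟨C', hC', hwg⟩ := hwg D₂ hDu2
  obtain ⟨C₂, hC₂, htub⟩ := Pool.W.D2R.tub_u D₂ r (by omega)
  have hC₂R : (1 : ℝ) ≤ C₂ := by exact_mod_cast hC₂
  have hC'0 : 0 < C' := by linarith
  obtain ⟨C₁, hC₁⟩ : ∃ C₁ : ℝ, C₁ = C₂ * (4 * C' + 4) + 4 * C' + 4 := ⟨_, rfl⟩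
  have hC2C : 0 ≤ C₂ * (4 * C' + 4) := by positivity
  refine ⟨C₁, by linarith, ?_⟩
  intro S P θ c Pt Pu R Rw C a au Eb Eu ε₁ ε₀ η₀ χ o lv be Dr N N₂ hN hN₂ hP hθ hS hinj hPu hEu hW
    hRw hεη hχ hw hau hl1 hl2 hl3 hl4
  have hε₀ : 0 ≤ ε₀ := (hW a (Or.inr rfl)).ε0
  have hη0 : 0 < η₀ := lt_of_le_of_lt (mul_nonneg (by linarith) hε₀) hεη
  have hCη : 4 * (C' * η₀) ≤ C₁ * η₀ := by
    have : (4 * C') * η₀ ≤ C₁ * η₀ := mul_le_mul_of_nonneg_right (by linarith) hη0.le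
    linarith
  have hCη0 : 0 < C' * η₀ := by positivity
  obtain ⟨o', ho'⟩ : ∃ o' : ℕ → ℝ, o' = fun k => if k = 0 then o 0 else a := ⟨_, rfl⟩
  have o0 : o' 0 = o 0 := by simp [ho']
  have o1 : o' 1 = a := by simp [ho']
  have hok : ∀ k, o' k = o 0 ∨ o' k = a := fun k => by
    rw [ho']
    by_cases h : k = 0
    · left; simp [h]
    · right; simp [h]
  obtain ⟨K₁, b', hK₁, hwg⟩ := hwg (S := S) (P := P) (θ := θ) (c := c) (Pt := Pu) (R := Rw)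
    (a := au) (Eb := Eu) (ε₀ := ε₀) (η₀ := η₀) (o := o') 1 1 le_rfl hP hθ hS hinj hPu hEu
    (fun k _ => hW _ (hok k)) (fun k h1 h2 => absurd h1 (by omega))
    (lt_of_le_of_lt (mul_le_mul_of_nonneg_right (by linarith) hε₀) hεη)
    (fun k _ => by
      obtain ⟨h1, h2, h3, -⟩ := hw _ (hok k)
      exact ⟨by linarith, by linarith, by linarith⟩)
    (fun k _ => by
      obtain ⟨-, -, -, h4, -⟩ := hw _ (hok k)
      linarith) hau (fun k _ l hl => (hw _ (hok k)).2.2.2.2.1 l hl)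
    (fun k _ l hl => (hw _ (hok k)).2.2.2.2.2 l hl)
  obtain ⟨κ', hκ'⟩ : ∃ κ' : ℝ, κ' = 1 / (8 * 16 ^ r) := ⟨_, rfl⟩
  have hκ'0 : 0 < κ' := by rw [hκ']; positivity
  have hκ'1 : κ' * (8 * 16 ^ r) ≤ 1 := by
    rw [hκ', one_div_mul_eq_div, div_self (by positivity)]
  refine ⟨K₁ * (4 * 16 ^ r), by positivity, fun κ => ?_⟩
  have big : ∀ {x y : ℝ}, 0 < x → ∃ J₀ : ℕ, ∀ J : ℕ, J₀ ≤ J → y ≤ x * J := by
    intro x y hx
    refine ⟨⌈y / x⌉₊, fun J hJ => ?_⟩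
    have h1 : y / x ≤ J := (Nat.le_ceil _).trans (by exact_mod_cast hJ)
    rw [div_le_iff₀ hx] at h1
    linarith
  obtain ⟨J₁, hJ₁⟩ := big (x := η₀) (y := 7 * C₂ + 8) hη0
  refine Pool.S6C.Bas.mono J₁ (hwg κ' hκ'0) ?_
  intro J hJ F A w1 b z gc gT g₀ G H T TH Gt Ht W
  have j1 := hJ₁ J hJ
  obtain ⟨B', z', gc', gT', g₀', G', H', T', TH', Gt', Ht', hB', hPB', W'⟩ := w1
  have hJ0 : (0 : ℝ) ≤ J := Nat.cast_nonneg J
  have mulJ : ∀ {x y : ℝ}, x ≤ y → x * J ≤ y * J := fun h => mul_le_mul_of_nonneg_right h hJ0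
  have hηJ0 : 0 ≤ η₀ * J := mul_nonneg hη0.le hJ0
  have hoa : o 0 ≤ a := (W.win.ho 0 (by omega)).2
  have ho0 : 0 ≤ o 0 := (W.win.ho 0 (by omega)).1
  have ho1 := W.win.ho 1 hN
  have ho2 := W.wb.ho 2 hN₂
  have ha0 : 0 ≤ a := ho0.trans hoa
  have haau : a ≤ au := by
    have := (hw a (Or.inr rfl)).2.2.2.1
    linarith
  -- the windows
  obtain ⟨aN, haN⟩ : ∃ n : ℕ, n = ⌊a * J⌋₊ := ⟨_, rfl⟩
  obtain ⟨tN, htN⟩ : ∃ n : ℕ, n = ⌊o 0 * J⌋₊ := ⟨_, rfl⟩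
  obtain ⟨w₁, hw₁⟩ : ∃ n : ℕ, n = ⌊o 1 * J⌋₊ := ⟨_, rfl⟩
  obtain ⟨w₂, hw₂⟩ : ∃ n : ℕ, n = ⌊o 2 * J⌋₊ := ⟨_, rfl⟩
  obtain ⟨uN, huN⟩ : ∃ n : ℕ, n = ⌊au * J⌋₊ := ⟨_, rfl⟩
  have htaN : tN ≤ aN := by rw [htN, haN]; exact Nat.floor_le_floor (mulJ hoa)
  have hwaN : w₁ ≤ aN := by rw [hw₁, haN]; exact Nat.floor_le_floor (mulJ ho1.2)
  have hw2aN : w₂ ≤ aN := by rw [hw₂, haN]; exact Nat.floor_le_floor (mulJ ho2.2)
  have hauN : aN ≤ uN := by rw [haN, huN]; exact Nat.floor_le_floor (mulJ haau)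
  have huJ : uN ≤ J := by
    rw [huN]
    have := Nat.floor_le_floor (mulJ hau)
    rw [one_mul, Nat.floor_natCast] at this
    exact this
  have fa := Pool.V1E.flo (mul_nonneg ha0 hJ0)
  have fu := Pool.V1E.flo (mul_nonneg (ha0.trans haau) hJ0)
  have ft := Pool.V1E.flo (mul_nonneg ho0 hJ0)
  have f1 := Pool.V1E.flo (mul_nonneg ho1.1 hJ0)
  have f2 := Pool.V1E.flo (mul_nonneg ho2.1 hJ0)
  rw [← haN] at fa
  rw [← huN] at fu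
  rw [← htN] at ft
  rw [← hw₁] at f1
  rw [← hw₂] at f2
  -- the exponents
  obtain ⟨h, hh⟩ : ∃ h : ℕ, h = ⌊η₀ * J⌋₊ := ⟨_, rfl⟩
  obtain ⟨u, hu⟩ : ∃ u : ℕ, u = ⌊C' * (η₀ * J)⌋₊ := ⟨_, rfl⟩
  obtain ⟨xx, hxx⟩ : ∃ x : ℕ, x = ⌊3 * (C' * (η₀ * J)) + 3 * (η₀ * J)⌋₊ := ⟨_, rfl⟩
  obtain ⟨x, hx⟩ : ∃ x : ℕ, x = xx + 6 := ⟨_, rfl⟩
  have fh := Pool.V1E.flo hηJ0
  have fC := Pool.V1E.flo (mul_nonneg hC'0.le hηJ0)
  have fx := Pool.V1E.flo (by positivity : (0 : ℝ) ≤ 3 * (C' * (η₀ * J)) + 3 * (η₀ * J))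
  rw [← hxx] at fx
  have hx' : (x : ℝ) = xx + 6 := by rw [hx]; push_cast; ring
  have fx2 : 3 * (C' * (η₀ * J)) + 3 * (η₀ * J) + 5 ≤ x := by linarith [fx.2]
  have fx1 : (x : ℝ) ≤ 3 * (C' * (η₀ * J)) + 3 * (η₀ * J) + 6 := by linarith [fx.1]
  rw [← hh] at fh
  rw [← hu] at fC
  have hCηJ : 0 ≤ C' * (η₀ * J) := mul_nonneg hC'0.le hηJ0
  -- the balls and the rows of the new system
  have E1 := W'.win.evs 1 le_rfl
  have hball := E1.ball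
  have hrel := E1.relb
  rw [o1, ← haN] at hball hrel
  have N1 := fun l (hl : l ≤ r) => W'.win.g_num (k := 1) le_rfl hl
  have N2 := fun l (hl : l < r) => (W'.win.t_num (k := 1) le_rfl hl).1 (hRw l hl)
  simp only [o1] at N1 N2
  rw [← haN, ← huN] at N1 N2
  -- the row label
  obtain ⟨P1, hP1⟩ : ∃ y : ℝ, y = (Pu au (o 0) - 2 * (C' * η₀)) * J - C' * (η₀ * J) := ⟨_, rfl⟩
  obtain ⟨P2, hP2⟩ : ∃ y : ℝ, y = (gc' 1 r : ℝ) - C' * (η₀ * J) := ⟨_, rfl⟩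
  have hP10 : 0 ≤ P1 := by
    have h1 := (hw _ (Or.inl rfl)).2.1
    have h2 : 4 * (C' * η₀) * J ≤ Pu au (o 0) * J := mulJ (by linarith)
    rw [hP1]
    have h3 : (Pu au (o 0) - 2 * (C' * η₀)) * J - C' * (η₀ * J) =
        Pu au (o 0) * J - 3 * (C' * (η₀ * J)) := by ring
    rw [h3]
    linarith
  have hP20 : 0 ≤ P2 := by
    have h1 := W'.win.hgr 1 le_rfl
    rw [hP2]
    linarith
  obtain ⟨p, hp⟩ : ∃ p : ℕ, p = ⌊min P1 P2⌋₊ := ⟨_, rfl⟩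
  have fp := Pool.V1E.flo (le_min hP10 hP20)
  rw [← hp] at fp
  have hpP1 : (p : ℝ) ≤ P1 := fp.1.trans (min_le_left _ _)
  have hpP2 : (p : ℝ) ≤ P2 := fp.1.trans (min_le_right _ _)
  have hrow := W'.win.row 0 (by norm_num) 1 le_rfl (by rw [o0, o1]; exact hoa) p (by
      simp only [o0]
      rw [hP1] at hpP1
      linarith) (by
      rw [hP2] at hpP2
      linarith)
  rw [o0, o1, ← haN, ← htN, ← huN, ← hu] at hrow
  -- the chain of the deep window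
  have E2 := W.win.evs 1 hN
  have hT := E2.thin
  rw [← haN, ← hw₁, Nat.add_sub_cancel' hwaN] at hT
  -- the frame
  have E3 := (W.wb.ev 2 hN₂).rad 2 hN₂
  rw [W.za 2 hN₂, ← haN, ← hw₂, Nat.add_sub_cancel' hw2aN] at E3
  have N3 := fun l (hl : l ≤ r) => W.wb.g_num (k := 2) (l := l) hN₂ (by omega)
  have N4 := fun l (hl : l ≤ r) => W.win.t_num (k := 1) (l := l) hN (by omega)
  rw [← haN, ← hw₁] at N4
  have cst : ∀ {i j : ℕ}, (i : ℝ) ≤ j → i ≤ j := fun h => by exact_mod_cast h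
  have caN : ((uN - aN : ℕ) : ℝ) = uN - aN := by rw [Nat.cast_sub hauN]
  have caw : ((aN - w₁ : ℕ) : ℝ) = aN - w₁ := by rw [Nat.cast_sub hwaN]
  have caw2 : ((aN - w₂ : ℕ) : ℝ) = aN - w₂ := by rw [Nat.cast_sub hw2aN]
  have cat : ((aN - tN : ℕ) : ℝ) = aN - tN := by rw [Nat.cast_sub htaN]
  have q1 : ∀ l < r, gT' 1 l ≤ g₀' 1 l + (uN - aN) + x := fun l hl => by
    refine cst ?_
    push_cast
    rw [caN]
    have h1 := (N2 l hl).2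
    have h2 := (N1 l hl.le).2.2.1
    linarith [fx2]
  have q2 : ∀ l < r, g₀' 1 l ≤ ⌊lv 0 l * J⌋₊ + ((aN - tN) + x) := fun l hl => by
    refine cst ?_
    push_cast
    rw [cat]
    have h1 := (N1 l hl.le).2.2.2.1
    have h2 := mulJ (hl1 l hl).1
    have h3 := Nat.lt_floor_add_one (lv 0 l * (J : ℝ))
    linarith [fx2]
  have q3 : ∀ l < r, g₀' 1 l ≤ (⌊b 2 l * J⌋₊ + (aN - w₂)) + x := fun l hl => by
    refine cst ?_
    push_cast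
    rw [caw2]
    have h1 := (N1 l hl.le).2.2.2.1
    have h2 := mulJ (hl1 l hl).2
    have h3 := (N3 l hl.le).1
    linarith [fx2]
  have q4 : ∀ l ≤ r, gT 1 l ≤ g₀' 1 l + x := fun l hl => by
    refine cst ?_
    push_cast
    have h1 := (N1 l hl).2.2.1
    obtain ⟨k1, k2⟩ := N4 l hl
    by_cases hR : R l
    · have h2 := mulJ ((hl2 l hl).1 hR)
      have h3 := (k1 hR).2
      linarith [fx2]
    · have h2 := mulJ ((hl2 l hl).2 hR)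
      have h3 := (k2 hR).2
      linarith [fx2]
  have q5 : gT 1 r + (uN - aN) ≤ p + x := by
    refine cst ?_
    push_cast
    rw [caN]
    obtain ⟨k1, k2⟩ := N4 r le_rfl
    have hA : (gT 1 r : ℝ) + (uN - aN) ≤ P1 + 3 * (C' * (η₀ * J)) + η₀ * J + 2 := by
      have e1 : (Pu au (o 0) - 2 * (C' * η₀)) * J - C' * (η₀ * J) =
          Pu au (o 0) * J - 3 * (C' * (η₀ * J)) := by ring
      rw [hP1, e1]
      by_cases hR : R r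
      · have h2 := mulJ (hl3 hR)
        have h3 := (k1 hR).2
        linarith
      · have h2 := mulJ (hl4 hR)
        have h3 := (k2 hR).2
        linarith
    have hB : (gT 1 r : ℝ) + (uN - aN) ≤ P2 + C' * (η₀ * J) + 2 * (η₀ * J) + 1 := by
      have h1 := (N1 r le_rfl).2.2.2.2.1
      rw [hP2]
      by_cases hR : R r
      · have h2 := mulJ ((hl2 r le_rfl).1 hR)
        have h3 := (k1 hR).2
        linarith
      · have h2 := mulJ ((hl2 r le_rfl).2 hR)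
        have h3 := (k2 hR).2
        linarith
    have hC : (gT 1 r : ℝ) + (uN - aN) ≤ min P1 P2 + 3 * (C' * (η₀ * J)) + 2 * (η₀ * J) + 2 := by
      rcases min_choice P1 P2 with h | h <;> rw [h] <;> linarith
    linarith [fx2, fp.2]
  obtain ⟨B₂, b1, b2, b3⟩ := htub (F := F) (c := c) (tN := tN) (aN := aN) (v := uN - aN) (p := p)
    (h := h) (u := u) (x := x) (d := (aN - tN) + x) (w₁ := w₁) (w₂ := w₂) (g₀ := g₀' 1)
    (gT := gT 1) (gf := fun l => ⌊b 2 l * J⌋₊ + (aN - w₂)) (gT' := gT' 1)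
    (s := fun l => ⌊lv 0 l * J⌋₊) (κ := κ') (B₀ := B') hinj (by omega) hwaN hw2aN hκ'0.le hκ'1
    (hball.mono le_rfl (fun _ => hDu2) le_rfl le_rfl) (by rw [hh]; exact hrel) hrow
    (fun l hl => ⟨q1 l hl, (E1.rgh l hl (hRw l hl)).2.2⟩)
    ((hT.sub hB').mono le_rfl (fun _ => hD2) le_rfl le_rfl)
    ((E3.sub hB').mono (by omega) (fun _ => hD2) le_rfl le_rfl)
    (fun l hl => ⟨q2 l hl, q3 l hl⟩) q4 q5
  refine ⟨B₂, fun s => Ht' 0 s, fun ω hω => hB' ω (b1 ω hω), ?_, (W'.win.evs 0 (by norm_num)).dH,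
    (W'.win.evs 0 (by norm_num)).pH, fun ω hω V hV0 hV => ?_⟩
  · calc Pool.K2S.Pe F.p A ≤ K₁ * Pool.K2S.Pe F.p B' := hPB'
      _ ≤ K₁ * (4 * 16 ^ r * Pool.K2S.Pe F.p B₂) := mul_le_mul_of_nonneg_left b2 hK₁.le
      _ = _ := by ring
  have h1 := b3 ω hω V hV0 (fun l hl => by
    rw [Pool.D2R.dd_Gno]
    exact hV l hl)
  rw [← htN, ← hw₁, ← haN]
  refine h1.trans ?_
  have e2 : (2 : ℝ) ^ (C₂ * (h + x + u + 1)) * (2 ^ (aN - tN + x) / 2 ^ gT 1 r) =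
      2 ^ (C₂ * (h + x + u + 1) + x) * 2 ^ (aN - tN) / 2 ^ gT 1 r := by
    rw [pow_add, pow_add]
    ring
  rw [e2]
  refine div_le_div_of_nonneg_right (mul_le_mul_of_nonneg_right (pow_le_pow_right₀ (by norm_num)
    ?_) (by positivity)) (by positivity)
  refine Nat.le_floor ?_
  push_cast
  have k1 : (C₂ : ℝ) * (h + x + u + 1) ≤ C₂ * ((4 * C' + 4) * (η₀ * J) + 7) :=
    mul_le_mul_of_nonneg_left (by linarith [fh.1, fC.1]) (by linarith)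
  have k2 : C₁ * η₀ * J ≤ χ * J := mulJ hχ
  have k3 : C₁ * η₀ * J = C₂ * (4 * C' + 4) * (η₀ * J) + 4 * (C' * (η₀ * J)) + 4 * (η₀ * J) := by
    rw [hC₁]
    ring
  have k4 : (C₂ : ℝ) * ((4 * C' + 4) * (η₀ * J) + 7) =
      C₂ * (4 * C' + 4) * (η₀ * J) + 7 * C₂ := by ring
  linarith

end Pool.W.V1E
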