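import Pool.Agent.H80.NYU.HuS
import Pool.Agent.H31.W.H73.D2.Tnp
import Pool.Agent.H31.W.H80.NYU.HuR
import Pool.Agent.H3.W.Bas
import Pool.Agent.H31.W1.H91.FR.QpG

/-!
# The closed labels of the tubes of a static or steep coordinate

`hur_ss`: `HuR` for `u` static or steep over coordinates of slope one. `celZ_ss`: the class theorem of
the end for `N - P(p, u)` with such a coordinate `u`.
-/

set_option autoImplicit false

namespace Pool.W.PKG

open Pool.PKG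

open Finset Real
open Pool.Agent.H49.Ent Pool.Agent.H32.Dense Pool.STK Pool.KA Pool.KSAT Pool.K2S Pool.PB
open Pool.GEN Pool.S6C Pool.STAT Pool.CHT Pool.GRW Pool.ONE Pool.STA
open Pool.LA91 (FaQ sumQ)

/-- **Closed labels of the tubes of** `u`, for `u` static or steep over coordinates of slope one, at
all scales of the record. -/
theorem hur_ss {m r : ℕ} (hr : 1 ≤ r) (hrm : r + 1 < m) {h : ℝ} {Sl : ℕ → ℝ} {κ : ℕ → Pool.PKG.Kg}
    (hκ : ∀ l < r, κ l = .one) (hκu : κ r = .stp ∨ κ r = .sta) {y a : ℝ} (hy : 0 ≤ y)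
    (hya : y ≤ a) : Pool.W.PKG.HuR m r y a h Sl κ := by
  intro al _ K₀ _ S₀ hS₀
  obtain ⟨au, hau⟩ : ∃ au : ℝ, au = max (a + 1) ((Sl r - 1) * a) := ⟨_, rfl⟩
  have hau1 : a + 1 ≤ au := by rw [hau]; exact le_max_left _ _
  have hau2 : (Sl r - 1) * a ≤ au := by rw [hau]; exact le_max_right _ _
  have ha0 : 0 ≤ a := hy.trans hya
  refine ⟨au, 2, fun _ => au, fun k => if k = 0 then 0 else a, by linarith, fun k hk => ?_,
    fun S₂ hS₂ D Dr hD hDDr C hC => ?_⟩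
  · interval_cases k
    · simp only [if_true]
      exact ⟨by linarith, by linarith, le_rfl⟩
    · simp only [one_ne_zero, if_false]
      exact ⟨by linarith, by linarith, le_rfl⟩
  obtain ⟨Du, hDu, hx⟩ := Pool.W.PKG.hu_rec m r S₂ hr (hS₀.trans hS₂)
  obtain ⟨C₁, hC₁, hx⟩ := hx D hD
  have hC₁0 : 0 < C₁ := by linarith
  refine ⟨Du, fun X hX => ?_⟩
  refine ⟨min (X / C₁) (1 / C₁), lt_min (div_pos hX hC₁0) (div_pos one_pos hC₁0),
    fun hh k₁ hhh hhl hk₁ => ?_⟩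
  have h1 : C₁ * hh ≤ X := by
    have h2 := hhl.trans (min_le_left _ _)
    rw [le_div_iff₀ hC₁0] at h2
    linarith
  have h2 : C₁ * hh ≤ 1 := by
    have h2 := hhl.trans (min_le_right _ _)
    rw [le_div_iff₀ hC₁0] at h2
    linarith
  refine ⟨max au k₁, 0, fun _ => 0, 0, fun _ => 0, fun j hj => absurd hj (Nat.not_lt_zero _),
    fun j hj => absurd hj (Nat.not_lt_zero _), fun K' hK' => ?_⟩
  have hK1 : au ≤ K' := (le_max_left _ _).trans hK'
  have hK2 : k₁ ≤ K' := (le_max_right _ _).trans hK'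
  refine ⟨hh / C₁, div_pos hhh hC₁0, fun ε hε hεε g₀ P θ P₂ θ₂ Eb e₂ c Pt rt L T G g _ _ _ => ?_⟩
  rw [le_div_iff₀ hC₁0] at hεε
  refine ⟨1, one_pos, fun q t _ S N A V N' V' R hp _ N₁ N₂ vw hN₁ _ hN₂ _ => ?_⟩
  obtain ⟨j0, hj0, hA0, hV0⟩ := hp 0 (by norm_num)
  obtain ⟨j1, hj1, hA1, hV1⟩ := hp 1 (by norm_num)
  norm_num at hV0 hV1
  obtain ⟨K₄, hK₄, H⟩ := hx R hrm hκ hκu (y := y) (a := a) (au := au) (k₁ := k₁) (hh := hh) (X := X)
    (C := C) (vw := vw) (Rg := fun l => κ l = .one ∨ κ l = .thin) Dr N₁ N₂ hN₁ (by omega) (by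
      rcases hκu with hk | hk <;> simp [hk]) hy hya hau1 hau2 hK1 (by linarith) hK2
    ⟨j0, hj0, hA0, hV0⟩ ⟨j1, hj1, hA1, hV1⟩ hhh hε.le (by linarith) h1 h2
  exact ⟨K₄, hK₄, fun κ' _ => H κ'⟩


end Pool.W.PKG
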